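import Mathlib

namespace Pool.Agent.MP_96ff56_al.H10

def vv : Fin 7 → Fin 4 → ℤ :=
  ![![1, 0, 0, 0], ![0, 1, 0, 0], ![0, 0, 1, 0], ![0, 0, 0, 1],
    ![0, 1, 1, 1], ![1, 0, -1, 0], ![1, 1, -1, -1]]

def dl : Fin 4 → Fin 7 := ![2, 4, 5, 6]

def tup (a : Fin 4 → ℤ) : ℤ × ℤ × ℤ × ℤ := (a 0, a 1, a 2, a 3)

def det4 : ℤ × ℤ × ℤ × ℤ → ℤ × ℤ × ℤ × ℤ → ℤ × ℤ × ℤ × ℤ → ℤ × ℤ × ℤ × ℤ → ℤ
  | (a0, a1, a2, a3), (b0, b1, b2, b3), (c0, c1, c2, c3), (e0, e1, e2, e3) =>
  (a0 * b1 - a1 * b0) * (c2 * e3 - c3 * e2)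
    - (a0 * b2 - a2 * b0) * (c1 * e3 - c3 * e1)
    + (a0 * b3 - a3 * b0) * (c1 * e2 - c2 * e1)
    + (a1 * b2 - a2 * b1) * (c0 * e3 - c3 * e0)
    - (a1 * b3 - a3 * b1) * (c0 * e2 - c2 * e0)
    + (a2 * b3 - a3 * b2) * (c0 * e1 - c1 * e0)

lemma det_eq_det4 (M : Matrix (Fin 4) (Fin 4) ℤ) :
    M.det = det4 (tup (M 0)) (tup (M 1)) (tup (M 2)) (tup (M 3)) := by
  simp [Matrix.det_succ_row_zero, Fin.sum_univ_succ, Fin.succAbove, det4, tup]
  ring

def fanoProd : List (ℤ × ℤ × ℤ × ℤ) → ℤ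
  | [a0, a1, a2, a3, a4, a5, a6] =>
    det4 a2 a4 a5 a6 * (det4 a3 a5 a6 a0 * (det4 a4 a6 a0 a1 * (det4 a5 a0 a1 a2 *
      (det4 a6 a1 a2 a3 * (det4 a0 a2 a3 a4 * det4 a1 a3 a4 a5)))))
  | _ => 0

def vlist : List (ℤ × ℤ × ℤ × ℤ) :=
  [(1, 0, 0, 0), (0, 1, 0, 0), (0, 0, 1, 0), (0, 0, 0, 1), (0, 1, 1, 1), (1, 0, -1, 0),
    (1, 1, -1, -1)]

def psum {α : Type} : List α → (List α → ℤ) → ℤ
  | [], f => f []
  | t :: ts, f => psum ts (fun p => ((List.permutations'Aux t p).map f).sum)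

lemma psum_eq {α : Type} (l : List α) (f : List α → ℤ) :
    psum l f = (l.permutations'.map f).sum := by
  induction l generalizing f with
  | nil => simp [psum]
  | cons t ts ih =>
    rw [psum, ih, List.permutations', List.map_flatMap]
    generalize ts.permutations' = L
    induction L with
    | nil => simp
    | cons a L ihL => simp [ihL]

theorem fano_list : (vlist.permutations'.map fanoProd).sum ≠ 0 := by
  rw [← psum_eq]
  decide +kernel

lemma sum_perm_eq {n : ℕ} (f : List (Fin n) → ℤ) :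
    ∑ σ : Equiv.Perm (Fin n), f (List.ofFn σ) = ((List.finRange n).permutations'.map f).sum := by
  have hnd : (List.finRange n).permutations'.Nodup :=
    (List.permutations_perm_permutations' _).nodup_iff.mp
      (List.nodup_permutations _ (List.nodup_finRange n))
  rw [← List.sum_toFinset f hnd]
  refine Finset.sum_bij (fun σ _ => List.ofFn σ) ?_ ?_ ?_ (fun _ _ => rfl)
  · intro σ _
    rw [List.mem_toFinset, List.mem_permutations', List.ofFn_eq_map]
    exact Equiv.Perm.map_finRange_perm σ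
  · intro σ _ τ _ h
    exact Equiv.ext (congrFun (List.ofFn_injective h))
  · intro l hl
    rw [List.mem_toFinset, List.mem_permutations'] at hl
    have hlen : l.length = n := by rw [hl.length_eq, List.length_finRange]
    have hl' : l.Nodup := hl.nodup_iff.mpr (List.nodup_finRange n)
    let φ : Fin n → Fin n := fun i => l.get (i.cast hlen.symm)
    have hφ : Function.Injective φ := by
      intro i j h
      have := (List.nodup_iff_injective_get.mp hl') h
      exact Fin.cast_injective _ this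
    refine ⟨Equiv.ofBijective φ (Finite.injective_iff_bijective.mp hφ), Finset.mem_univ _, ?_⟩
    apply List.ext_get (by simp [hlen])
    intro i h1 h2
    simp [φ]

theorem fano_sum : (∑ σ : Equiv.Perm (Fin 7), ∏ k : Fin 7,
    (Matrix.of fun r c : Fin 4 => vv (σ (k + dl r)) c).det) ≠ 0 := by
  have h1 := sum_perm_eq (n := 7) (fun l => fanoProd (l.map fun a => tup (vv a)))
  have h2 : (List.finRange 7).map (fun a => tup (vv a)) = vlist := by decide +kernel
  have h3 := fano_list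
  rw [← h2, ← List.map_permutations', List.map_map] at h3
  intro h
  apply h3
  refine Eq.trans h1.symm (Eq.trans (Finset.sum_congr rfl fun σ _ => ?_) h)
  simp only [det_eq_det4, Fin.prod_univ_succ, Fin.prod_univ_zero, mul_one, List.ofFn_succ,
    List.ofFn_zero, List.map_cons, List.map_nil, fanoProd]
  rfl

end Pool.Agent.MP_96ff56_al.H10
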