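import Mathlib

/-!
Definitions for the Hermite-Hadamard-Howe map, in the convention of the problem file:
tensors are multilinear maps on the dual space, and permutations act on the inputs.
-/

namespace Pool.Agent.MP_96ff56_al.H10

/-- The tensor power of `V` with one factor for each element of `ι`: multilinear maps on `V^*`. -/
abbrev Tens (V : Type*) [AddCommGroup V] [Module ℂ V] (ι : Type) :=
  MultilinearMap ℂ (fun _ : ι => Module.Dual ℂ V) ℂ

variable {V : Type*} [AddCommGroup V] [Module ℂ V]

/-- The diagonal action of `GL(V)` on tensors. -/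
def act {ι : Type} (g : V ≃ₗ[ℂ] V) (t : Tens V ι) : Tens V ι :=
  t.compLinearMap fun _ => g.toLinearMap.dualMap

/-- Relabelling of the tensor factors along a bijection. -/
noncomputable def reidx {ι κ : Type} (e : ι ≃ κ) : Tens V ι →ₗ[ℂ] Tens V κ :=
  (MultilinearMap.domDomCongrLinearEquiv ℂ ℂ (Module.Dual ℂ V) ℂ e).toLinearMap

/-- The tensors fixed by a family of permutations of the factors. -/
noncomputable def fixedBy {ι G : Type} (e : G → Equiv.Perm ι) : Submodule ℂ (Tens V ι) :=
  ⨅ g : G, LinearMap.eqLocus (reidx (e g)) LinearMap.id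

/-- The average over a finite family of permutations of the factors. -/
noncomputable def avg {ι G : Type} [Fintype G] (e : G → Equiv.Perm ι) :
    Tens V ι →ₗ[ℂ] Tens V ι :=
  (Fintype.card G : ℂ)⁻¹ • ∑ g : G, reidx (e g)

/-- Permutations inside each of the `d` blocks of `n` factors. -/
def permIn (d n : ℕ) (τ : Fin d → Equiv.Perm (Fin n)) : Equiv.Perm (Fin d × Fin n) :=
  Equiv.prodCongrRight τ

/-- Permutations of the `d` blocks. -/
def permOut (d n : ℕ) (σ : Equiv.Perm (Fin d)) : Equiv.Perm (Fin d × Fin n) :=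
  Equiv.prodCongr σ (Equiv.refl (Fin n))

/-- `S^d(S^n V)`: `d` blocks of `n` factors, invariant under permutations inside each block
and under permutations of the blocks. -/
noncomputable def symSym (V : Type*) [AddCommGroup V] [Module ℂ V] (d n : ℕ) :
    Submodule ℂ (Tens V (Fin d × Fin n)) :=
  fixedBy (permIn d n) ⊓ fixedBy (permOut d n)

/-- The Hermite-Hadamard-Howe map: regroup, symmetrize inside each new block, then symmetrize
over the new blocks. -/
noncomputable def hhh (V : Type*) [AddCommGroup V] [Module ℂ V] (d n : ℕ) :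
    Tens V (Fin d × Fin n) →ₗ[ℂ] Tens V (Fin n × Fin d) :=
  avg (permOut n d) ∘ₗ avg (permIn n d) ∘ₗ reidx (Equiv.prodComm (Fin d) (Fin n))

/-- `GL(V)`-submodule. -/
def IsInv {ι : Type} (W : Submodule ℂ (Tens V ι)) : Prop :=
  ∀ g : V ≃ₗ[ℂ] V, ∀ t ∈ W, act g t ∈ W

/-- Irreducible `GL(V)`-submodule. -/
def IsIrr {ι : Type} (W : Submodule ℂ (Tens V ι)) : Prop :=
  IsInv W ∧ W ≠ ⊥ ∧ ∀ U : Submodule ℂ (Tens V ι), U ≤ W → IsInv U → U = ⊥ ∨ U = W

/-- Highest weight vector of weight `π` for the Borel subgroup of the matrices that are upper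
triangular in the basis `b`. -/
def IsHW {ι : Type} {m : ℕ} (b : Module.Basis (Fin m) ℂ V) (π : Fin m → ℕ) (t : Tens V ι) : Prop :=
  t ≠ 0 ∧ ∀ g : V ≃ₗ[ℂ] V, (LinearMap.toMatrix b b g.toLinearMap).BlockTriangular id →
    act g t = (∏ i, LinearMap.toMatrix b b g.toLinearMap i i ^ π i) • t

/-- The `S_π V`-isotypic component of `M`: the sum of all irreducible submodules of `M` with
highest weight `π`. -/
noncomputable def isotypic {ι : Type} {m : ℕ} (b : Module.Basis (Fin m) ℂ V) (π : Fin m → ℕ)
    (M : Submodule ℂ (Tens V ι)) : Submodule ℂ (Tens V ι) :=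
  sSup {W | W ≤ M ∧ IsIrr W ∧ ∃ t ∈ W, IsHW b π t}

/-- The partition `(d^n)`, padded with zeros to length `m`. -/
def rect (m d n : ℕ) : Fin m → ℕ := fun i => if (i : ℕ) < n then d else 0

end Pool.Agent.MP_96ff56_al.H10
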