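import Pool.Agent.MP_96ff56_al.H10.Irr
import Pool.Agent.MP_96ff56_al.H10.Compute

namespace Pool.Agent.MP_96ff56_al.H10

open Matrix

variable {V : Type*} [AddCommGroup V] [Module ℂ V]

lemma hhh_outer' (d n : ℕ) (t : Tens V (Fin d × Fin n)) (σ' : Equiv.Perm (Fin n))
    (x : Fin n × Fin d → Module.Dual ℂ V) :
    hhh V d n t (fun p => x (σ' p.1, p.2)) = hhh V d n t x := by
  rw [hhh_apply, hhh_apply]
  congr 1
  exact Fintype.sum_equiv (Equiv.mulLeft σ') _ _ (fun σ => rfl)

lemma mem_symSym {d n : ℕ} (t : Tens V (Fin d × Fin n)) :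
    t ∈ symSym V d n ↔ (∀ τ : Fin d → Equiv.Perm (Fin n), reidx (Equiv.prodCongrRight τ) t = t) ∧
      ∀ σ : Equiv.Perm (Fin d), reidx (Equiv.prodCongr σ (Equiv.refl (Fin n))) t = t := by
  simp [symSym, fixedBy, permIn, permOut, Submodule.mem_iInf, LinearMap.mem_eqLocus]

lemma hhh_mem_symSym (d n : ℕ) (t : Tens V (Fin d × Fin n)) : hhh V d n t ∈ symSym V n d := by
  rw [mem_symSym]
  refine ⟨fun τ => ?_, fun σ => ?_⟩
  · ext x
    exact hhh_inner d n t τ x
  · ext x
    exact hhh_outer' d n t σ x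

lemma symSym_inv (d n : ℕ) : IsInv (symSym V d n) := by
  intro g t ht
  rw [mem_symSym] at ht ⊢
  refine ⟨fun τ => ?_, fun σ => ?_⟩
  · exact congrArg (act g) (ht.1 τ)
  · exact congrArg (act g) (ht.2 σ)

/-- bracket `k`, row `r` sits at slot `r` of letter `k + dl r` -/
def pos : (Σ _ : Fin 7, Fin 4) ≃ Fin 4 × Fin 7 where
  toFun q := (q.2, q.1 + dl q.2)
  invFun p := ⟨p.2 - dl p.1, p.1⟩
  left_inv q := by simp
  right_inv p := by simp

noncomputable def fano0 {m : ℕ} (hm : 4 ≤ m) (b : Module.Basis (Fin m) ℂ V) :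
    Tens V (Fin 4 × Fin 7) :=
  reidx pos ((MultilinearMap.mkPiAlgebra ℂ (Fin 7) ℂ).compMultilinearMap
    (N := fun (_ : Fin 7) (_ : Fin 4) => Module.Dual ℂ V)
    (fun _ => (Matrix.detRowAlternating (n := Fin 4) (R := ℂ)).toMultilinearMap.compLinearMap
      (fun _ => LinearMap.pi fun c : Fin 4 => Module.Dual.eval ℂ V (b (Fin.castLE hm c)))))

lemma fano0_apply {m : ℕ} (hm : 4 ≤ m) (b : Module.Basis (Fin m) ℂ V)
    (x : Fin 4 × Fin 7 → Module.Dual ℂ V) :
    fano0 hm b x = ∏ k : Fin 7,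
      (Matrix.of fun r c : Fin 4 => x (r, k + dl r) (b (Fin.castLE hm c))).det := by
  rw [fano0, reidx_apply]
  simp only [MultilinearMap.compMultilinearMap_apply, MultilinearMap.mkPiAlgebra_apply]
  rfl

lemma prod_rect {n m : ℕ} (d : ℕ) (hnm : n ≤ m) (D : Fin m → ℂ) :
    ∏ i, D i ^ rect m d n i = (∏ i : Fin n, D (Fin.castLE hnm i)) ^ d := by
  rw [← Finset.prod_pow]
  symm
  refine Finset.prod_of_injOn (Fin.castLE hnm) (fun a _ c _ h => Fin.castLE_injective hnm h)
    (by simp) ?_ ?_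
  · intro i _ hi
    have : ¬ (i : ℕ) < n := by
      intro h
      apply hi
      exact ⟨⟨i, h⟩, by simp, by ext; simp⟩
    simp [rect, this]
  · intro i _
    simp [rect]

lemma act_fano0 {m : ℕ} (hm : 4 ≤ m) (b : Module.Basis (Fin m) ℂ V) (g : V ≃ₗ[ℂ] V)
    (hg : (LinearMap.toMatrix b b g.toLinearMap).BlockTriangular id) :
    act g (fano0 hm b)
      = (∏ i, LinearMap.toMatrix b b g.toLinearMap i i ^ rect m 7 4 i) • fano0 hm b := by
  ext x
  set G := LinearMap.toMatrix b b g.toLinearMap with hG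
  have hG4 : (G.submatrix (Fin.castLE hm) (Fin.castLE hm)).BlockTriangular id := by
    intro i j hij
    exact hg (show Fin.castLE hm j < Fin.castLE hm i by simpa using hij)
  have key : ∀ (ℓ : Module.Dual ℂ V) (c : Fin 4), ℓ (g (b (Fin.castLE hm c)))
      = ∑ i : Fin 4, ℓ (b (Fin.castLE hm i)) * G (Fin.castLE hm i) (Fin.castLE hm c) := by
    intro ℓ c
    have h1 : g (b (Fin.castLE hm c)) = ∑ i, G i (Fin.castLE hm c) • b i := by
      simp [hG, LinearMap.toMatrix_apply]
    rw [h1, map_sum]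
    symm
    refine Finset.sum_of_injOn (Fin.castLE hm) (fun a _ c _ h => Fin.castLE_injective hm h)
      (by simp) ?_ ?_
    · intro i _ hi
      have h2 : ¬ (i : ℕ) < 4 := by
        intro h
        apply hi
        exact ⟨⟨i, h⟩, by simp, by ext; simp⟩
      have h3 : G i (Fin.castLE hm c) = 0 := by
        apply hg
        show Fin.castLE hm c < i
        rw [Fin.lt_def]
        have := c.2
        simp only [Fin.val_castLE]
        omega
      simp [h3]
    · intro i _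
      simp [mul_comm]
  rw [act_apply, _root_.smul_apply, fano0_apply, fano0_apply, prod_rect 7 hm, smul_eq_mul]
  have h4 : ∀ k : Fin 7,
      (Matrix.of fun r c : Fin 4 => (x (r, k + dl r) ∘ₗ g.toLinearMap) (b (Fin.castLE hm c))).det
      = (∏ i : Fin 4, G (Fin.castLE hm i) (Fin.castLE hm i)) *
        (Matrix.of fun r c : Fin 4 => x (r, k + dl r) (b (Fin.castLE hm c))).det := by
    intro k
    have h5 := det_of_isUpperTriangular hG4
    simp only [submatrix_apply] at h5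
    rw [← h5, mul_comm, ← det_mul]
    congr 1
    ext r c
    simp [Matrix.mul_apply, key]
  simp only [h4, Finset.prod_mul_distrib, Finset.prod_const, Finset.card_univ, Fintype.card_fin]

lemma fano_ne_zero {m : ℕ} (hm : 4 ≤ m) (b : Module.Basis (Fin m) ℂ V) :
    hhh V 4 7 (fano0 hm b) ≠ 0 := by
  intro h
  let ℓ : Fin 7 → Module.Dual ℂ V := fun a =>
    b.constr ℂ fun i => if hi : (i : ℕ) < 4 then (vv a ⟨i, hi⟩ : ℂ) else 0
  have hℓ : ∀ a (c : Fin 4), ℓ a (b (Fin.castLE hm c)) = (vv a c : ℂ) := by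
    intro a c
    simp only [ℓ]
    rw [Module.Basis.constr_basis, dif_pos (by simp)]
    rfl
  have h1 := congrArg (fun u : Tens V (Fin 7 × Fin 4) => u (fun p => ℓ p.1)) h
  simp only [hhh_apply, fano0_apply, hℓ, Finset.sum_const, nsmul_eq_mul, ← mul_assoc,
    ← Finset.mul_sum, _root_.zero_apply] at h1
  rcases mul_eq_zero.mp h1 with h2 | h2
  · simp [Fintype.card_perm, Nat.factorial_ne_zero] at h2
  · apply fano_sum
    have h3 : ∀ (σ : Equiv.Perm (Fin 7)) (k : Fin 7),
        (Matrix.of fun r c : Fin 4 => (vv (σ (k + dl r)) c : ℂ)).det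
        = (((Matrix.of fun r c : Fin 4 => vv (σ (k + dl r)) c).det : ℤ) : ℂ) := by
      intro σ k
      rw [Int.cast_det]
      rfl
    simp only [h3] at h2
    exact_mod_cast h2

theorem isotypic_ne_bot {m : ℕ} (hm : 4 ≤ m) (b : Module.Basis (Fin m) ℂ V) :
    isotypic b (rect m 7 4) (symSym V 7 4) ≠ ⊥ := by
  have hw : IsHW b (rect m 7 4) (hhh V 4 7 (fano0 hm b)) := by
    refine ⟨fano_ne_zero hm b, fun g hg => ?_⟩
    rw [act_hhh, act_fano0 hm b g hg, map_smul]
  obtain ⟨W, hW⟩ := exists_irr b (rect m 7 4) (symSym V 7 4) (symSym_inv 7 4) _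
    (hhh_mem_symSym 4 7 _) hw
  intro h
  have h1 : W ≤ isotypic b (rect m 7 4) (symSym V 7 4) := le_sSup hW
  rw [h, le_bot_iff] at h1
  exact hW.2.1.2.1 h1

end Pool.Agent.MP_96ff56_al.H10
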