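import Pool.Agent.MP_96ff56_al.H10.Vanish

namespace Pool.Agent.MP_96ff56_al.H10

open Matrix

variable {V : Type*} [AddCommGroup V] [Module ℂ V]

/-- coordinates of a tensor -/
noncomputable def coords {ι : Type} {m : ℕ} (b : Module.Basis (Fin m) ℂ V) :
    Tens V ι →ₗ[ℂ] EuclideanSpace ℂ (ι → Fin m) where
  toFun t := WithLp.toLp 2 fun a => t fun p => b.coord (a p)
  map_add' _ _ := rfl
  map_smul' _ _ := rfl

lemma coords_apply {ι : Type} {m : ℕ} (b : Module.Basis (Fin m) ℂ V) (t : Tens V ι)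
    (a : ι → Fin m) : coords b t a = t fun p => b.coord (a p) := rfl

lemma coords_injective {ι : Type} [Finite ι] {m : ℕ} (b : Module.Basis (Fin m) ℂ V) :
    Function.Injective (coords (ι := ι) b) := by
  intro t t' h
  refine Module.Basis.ext_multilinear (fun _ => b.dualBasis) fun a => ?_
  have := congrArg (fun v : EuclideanSpace ℂ (ι → Fin m) => v a) h
  simpa [coords_apply] using this

lemma coord_comp {m : ℕ} (b : Module.Basis (Fin m) ℂ V) (g : V →ₗ[ℂ] V) (i : Fin m) :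
    (b.coord i) ∘ₗ g = ∑ c, LinearMap.toMatrix b b g i c • b.coord c := by
  refine b.ext fun j => ?_
  simp [LinearMap.toMatrix_apply, Finsupp.single_apply]

lemma coords_act {ι : Type} [Fintype ι] [DecidableEq ι] {m : ℕ} (b : Module.Basis (Fin m) ℂ V)
    (g : V ≃ₗ[ℂ] V) (t : Tens V ι) (a : ι → Fin m) :
    coords b (act g t) a = ∑ c : ι → Fin m,
      (∏ p, LinearMap.toMatrix b b g.toLinearMap (a p) (c p)) * coords b t c := by
  rw [coords_apply, act_apply]
  simp only [coord_comp]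
  rw [MultilinearMap.map_sum t
    (fun p c => LinearMap.toMatrix b b g.toLinearMap (a p) c • b.coord c)]
  simp only [MultilinearMap.map_smul_univ, smul_eq_mul, coords_apply]

lemma exists_adjoint {ι : Type} [Fintype ι] [DecidableEq ι] {m : ℕ} (b : Module.Basis (Fin m) ℂ V)
    (g : V ≃ₗ[ℂ] V) : ∃ g' : V ≃ₗ[ℂ] V, ∀ u t : Tens V ι,
      inner ℂ (coords b u) (coords b (act g t)) = inner ℂ (coords b (act g' u)) (coords b t) := by
  classical
  have hdet : (LinearMap.toMatrix b b g.toLinearMap).det ≠ 0 :=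
    (LinearEquiv.isUnit_det g b b).ne_zero
  obtain ⟨g', hg'⟩ := exists_equiv b (LinearMap.toMatrix b b g.toLinearMap)ᴴ
    (by rw [det_conjTranspose]; simpa using hdet)
  refine ⟨g', fun u t => ?_⟩
  simp only [PiLp.inner_apply, RCLike.inner_apply, coords_act, hg', map_sum, map_mul, map_prod,
    Finset.mul_sum, Finset.sum_mul, conjTranspose_apply]
  rw [Finset.sum_comm]
  refine Finset.sum_congr rfl fun c _ => Finset.sum_congr rfl fun a _ => ?_
  simp only [RCLike.star_def, Complex.conj_conj]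
  ring

lemma exists_compl {ι : Type} [Fintype ι] {m : ℕ} (b : Module.Basis (Fin m) ℂ V)
    (W U : Submodule ℂ (Tens V ι)) (hW : IsInv W) (hU : IsInv U) (hUW : U ≤ W) :
    ∃ U' : Submodule ℂ (Tens V ι), U' ≤ W ∧ IsInv U' ∧ Disjoint U U' ∧
      ∀ w ∈ W, ∃ u ∈ U, w - u ∈ U' := by
  classical
  refine ⟨W ⊓ ((U.map (coords b))ᗮ).comap (coords b), inf_le_left, ?_, ?_, ?_⟩
  · rintro g t ⟨ht, ht'⟩
    refine ⟨hW g t ht, ?_⟩
    have ht2 : coords b t ∈ (U.map (coords b))ᗮ := ht'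
    show coords b (act g t) ∈ (U.map (coords b))ᗮ
    rw [Submodule.mem_orthogonal] at ht2 ⊢
    rintro _ ⟨u, hu, rfl⟩
    obtain ⟨g', hg'⟩ := exists_adjoint (ι := ι) b g
    rw [hg']
    exact ht2 _ ⟨_, hU g' u hu, rfl⟩
  · rw [Submodule.disjoint_def]
    rintro t ht ⟨-, ht'⟩
    have ht2 : coords b t ∈ (U.map (coords b))ᗮ := ht'
    rw [Submodule.mem_orthogonal] at ht2
    have h0 := ht2 _ ⟨t, ht, rfl⟩
    rw [inner_self_eq_zero] at h0
    apply coords_injective b
    rw [h0, map_zero]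
  · intro w hw
    obtain ⟨y, ⟨u, hu, rfl⟩, z, hz, h⟩ :=
      Submodule.exists_add_mem_mem_orthogonal (K := U.map (coords b)) (coords b w)
    refine ⟨u, hu, W.sub_mem hw (hUW hu), ?_⟩
    show coords b (w - u) ∈ (U.map (coords b))ᗮ
    rw [map_sub, h, add_sub_cancel_left]
    exact hz

theorem exists_irr {ι : Type} [Fintype ι] {m : ℕ} (b : Module.Basis (Fin m) ℂ V) (π : Fin m → ℕ)
    (M : Submodule ℂ (Tens V ι)) (hM : IsInv M) (t : Tens V ι) (htM : t ∈ M) (ht : IsHW b π t) :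
    ∃ W : Submodule ℂ (Tens V ι), W ≤ M ∧ IsIrr W ∧ ∃ t ∈ W, IsHW b π t := by
  classical
  have : Module.Finite ℂ (Tens V ι) := Module.Finite.of_injective _ (coords_injective b)
  obtain ⟨W, ⟨hWM, hWinv, v, hvW, hv⟩, hmin⟩ :=
    (wellFounded_lt (α := Submodule ℂ (Tens V ι))).has_min
      {W | W ≤ M ∧ IsInv W ∧ ∃ t ∈ W, IsHW b π t} ⟨M, le_rfl, hM, t, htM, ht⟩
  refine ⟨W, hWM, ⟨hWinv, ?_, ?_⟩, v, hvW, hv⟩
  · rintro rfl
    exact hv.1 (by simpa using hvW)
  · intro U hUW hU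
    by_contra hcon
    push Not at hcon
    obtain ⟨hU0, hUW'⟩ := hcon
    obtain ⟨U', hU'W, hU', hdisj, hdec⟩ := exists_compl b W U hWinv hU hUW
    obtain ⟨u, hu, hu'⟩ := hdec v hvW
    by_cases hu0 : u = 0
    · subst hu0
      rw [sub_zero] at hu'
      refine hmin U' ⟨hU'W.trans hWM, hU', v, hu', hv⟩ (lt_of_le_of_ne hU'W ?_)
      rintro rfl
      exact hU0 (disjoint_self.mp (hdisj.mono_right hUW))
    · refine hmin U ⟨hUW.trans hWM, hU, u, hu, hu0, ?_⟩ (lt_of_le_of_ne hUW hUW')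
      intro g hg
      have h1 := hv.2 g hg
      set c := ∏ i, LinearMap.toMatrix b b g.toLinearMap i i ^ π i
      have h2 : act g v = act g u + act g (v - u) := by
        rw [← act_add, add_sub_cancel]
      have h3 : act g u - c • u = c • (v - u) - act g (v - u) := by
        rw [smul_sub, ← h1, h2]
        abel
      have h4 : act g u - c • u ∈ U := U.sub_mem (hU g u hu) (U.smul_mem c hu)
      have h5 : act g u - c • u ∈ U' := by
        rw [h3]
        exact U'.sub_mem (U'.smul_mem c hu') (hU' g _ hu')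
      exact sub_eq_zero.mp ((Submodule.disjoint_def.mp hdisj) _ h4 h5)

end Pool.Agent.MP_96ff56_al.H10
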