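import Mathlib

namespace Pool.Agent.MP_96ff56_al.H10

open Polynomial Matrix

lemma poly_line {ι M : Type*} [Fintype ι] [AddCommGroup M] [Module ℂ M]
    (u : MultilinearMap ℂ (fun _ : ι => M) ℂ) (x y : ι → M) :
    ∃ p : ℂ[X], ∀ s : ℂ, u (x + s • y) = p.eval s := by
  classical
  refine ⟨∑ S : Finset ι, C (u (S.piecewise y x)) * X ^ S.card, fun s => ?_⟩
  rw [add_comm, MultilinearMap.map_add_univ, eval_finsetSum]
  refine Finset.sum_congr rfl fun S _ => ?_
  have h : S.piecewise (s • y) x
      = S.piecewise (fun i => (fun _ => s) i • (S.piecewise y x) i) (S.piecewise y x) := by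
    funext i
    by_cases hi : i ∈ S <;> simp [hi]
  rw [h, MultilinearMap.map_piecewise_smul, eval_mul, eval_C, eval_pow, eval_X,
    Finset.prod_const, smul_eq_mul, mul_comm]

lemma poly_eq_of_ne_zero (p q : ℂ[X]) (h : ∀ s : ℂ, s ≠ 0 → p.eval s = q.eval s) : p = q := by
  apply Polynomial.eq_of_infinite_eval_eq
  refine Set.Infinite.mono (s := ({0}ᶜ : Set ℂ)) (fun s hs => h s hs) ?_
  exact (Set.finite_singleton (0 : ℂ)).infinite_compl

lemma poly_const_of_inv (p q : ℂ[X]) (h : ∀ s : ℂ, s ≠ 0 → p.eval s = q.eval s⁻¹) (s : ℂ) :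
    p.eval s = p.eval 0 := by
  have h1 : q.reverse = X ^ q.natDegree * p := by
    apply poly_eq_of_ne_zero
    intro s hs
    let _ : Invertible (s⁻¹) := invertibleOfNonzero (inv_ne_zero hs)
    have h2 := Polynomial.eval₂_reverse_mul_pow (RingHom.id ℂ) (s⁻¹) q
    simp only [eval₂_id, invOf_eq_inv, inv_inv] at h2
    rw [eval_mul, eval_pow, eval_X, h s hs, ← h2, inv_pow]
    field_simp
  by_cases hp : p = 0
  · simp [hp]
  have h3 : p.natDegree = 0 := by
    have h4 := Polynomial.reverse_natDegree_le q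
    rw [h1, Polynomial.natDegree_X_pow_mul _ hp] at h4
    omega
  rw [Polynomial.eq_C_of_natDegree_eq_zero h3]
  simp

lemma semi_inv {n d : ℕ} (F : Matrix (Fin n) (Fin n) ℂ → ℂ)
    (hpoly : ∀ A B : Matrix (Fin n) (Fin n) ℂ, ∃ p : ℂ[X], ∀ s : ℂ, F (A + s • B) = p.eval s)
    (hup : ∀ (A : Matrix (Fin n) (Fin n) ℂ) (i j : Fin n) (c : ℂ), i < j →
      F (A * transvection i j c) = F A)
    (hdiag : ∀ (A : Matrix (Fin n) (Fin n) ℂ) (D : Fin n → ℂ), (∀ i, D i ≠ 0) →
      F (A * diagonal D) = (∏ i, D i) ^ d * F A)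
    (G : Matrix (Fin n) (Fin n) ℂ) (hG : G.det ≠ 0) :
    ∀ A, F (A * G) = G.det ^ d * F A := by
  have hlow : ∀ (A : Matrix (Fin n) (Fin n) ℂ) (i j : Fin n) (c : ℂ), i < j →
      F (A * transvection j i c) = F A := by
    intro A i j c hij
    have hne : i ≠ j := hij.ne
    set w : Matrix (Fin n) (Fin n) ℂ :=
      transvection i j (-1) * transvection j i 1 * transvection i j (-1) with hw
    obtain ⟨p, hp⟩ := hpoly A (A * single j i 1)
    obtain ⟨q, hq⟩ := hpoly (A * w) (A * single i j 1 * w)
    have e1 : ∀ s : ℂ, A * transvection j i s = A + s • (A * single j i 1) := by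
      intro s
      rw [transvection, Matrix.mul_add, Matrix.mul_one, ← Matrix.mul_smul, smul_single]
      simp
    have e2 : ∀ r : ℂ, A * transvection i j r * w = A * w + r • (A * single i j 1 * w) := by
      intro r
      rw [transvection, Matrix.mul_add, Matrix.mul_one, Matrix.add_mul, ← Matrix.smul_mul,
        ← Matrix.mul_smul, smul_single]
      simp
    have key : ∀ s : ℂ, s ≠ 0 → p.eval s = q.eval s⁻¹ := by
      intro s hs
      rw [← hp, ← hq, ← e1, ← e2]
      let D : Fin n → ℂ := fun k => if k = i then s else if k = j then s⁻¹ else 1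
      have hD : ∀ k, D k ≠ 0 := by
        intro k
        simp only [D]
        split_ifs <;> simp [hs]
      have hprod : ∏ k, D k = 1 := by
        rw [Finset.prod_eq_mul i j hne]
        · simp [D, hne.symm, hs]
        · intro k _ hk
          simp [D, hk.1, hk.2]
        · simp
        · simp
      have e3 : A * transvection j i s
          = A * transvection i j s⁻¹ * w * diagonal D * transvection i j s⁻¹ := by
        rw [hw]
        simp only [← Matrix.mul_assoc]
        ext a k
        by_cases h1 : k = i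
        · subst h1
          simp [mul_transvection_apply_same, mul_transvection_apply_of_ne, hne, hne.symm, D,
            mul_diagonal]
          field_simp
          ring
        · by_cases h2 : k = j
          · subst h2
            simp [mul_transvection_apply_same, mul_transvection_apply_of_ne, hne, hne.symm, D,
              mul_diagonal]
            field_simp
            ring
          · simp [mul_transvection_apply_of_ne, h1, h2, D, mul_diagonal]
      rw [e3, hup _ _ _ _ hij, hdiag _ _ hD, hprod]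
      simp
    rw [e1, hp, poly_const_of_inv p q key c, ← hp]
    simp
  refine diagonal_transvection_induction_of_det_ne_zero
    (fun G => ∀ A, F (A * G) = G.det ^ d * F A) G hG ?_ ?_ ?_
  · intro D hD A
    rw [det_diagonal] at hD ⊢
    exact hdiag A D (fun i => (Finset.prod_ne_zero_iff.mp hD) i (Finset.mem_univ i))
  · intro t A
    rw [TransvectionStruct.det]
    rcases lt_or_gt_of_ne t.hij with h | h
    · simpa [TransvectionStruct.toMatrix] using hup A t.i t.j t.c h
    · simpa [TransvectionStruct.toMatrix] using hlow A t.j t.i t.c h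
  · intro G H _ _ hG hH A
    rw [← Matrix.mul_assoc, hH, hG, det_mul]
    ring

lemma vanish_sq {n d : ℕ} (hn : 2 ≤ n) (hd : Odd d) (F : Matrix (Fin n) (Fin n) ℂ → ℂ)
    (hpoly : ∀ A B : Matrix (Fin n) (Fin n) ℂ, ∃ p : ℂ[X], ∀ s : ℂ, F (A + s • B) = p.eval s)
    (hup : ∀ (A : Matrix (Fin n) (Fin n) ℂ) (i j : Fin n) (c : ℂ), i < j →
      F (A * transvection i j c) = F A)
    (hdiag : ∀ (A : Matrix (Fin n) (Fin n) ℂ) (D : Fin n → ℂ), (∀ i, D i ≠ 0) →
      F (A * diagonal D) = (∏ i, D i) ^ d * F A)
    (hsym : ∀ (A : Matrix (Fin n) (Fin n) ℂ) (σ : Equiv.Perm (Fin n)),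
      F (A.submatrix σ id) = F A) (A : Matrix (Fin n) (Fin n) ℂ) : F A = 0 := by
  have hsi := semi_inv (d := d) F hpoly hup hdiag
  have h1 : F 1 = 0 := by
    let i : Fin n := ⟨0, by omega⟩
    let j : Fin n := ⟨1, by omega⟩
    have hij : i ≠ j := by simp [i, j, Fin.ext_iff]
    have hdet : ((1 : Matrix (Fin n) (Fin n) ℂ).submatrix (Equiv.swap i j) id).det = -1 := by
      rw [det_permute, Equiv.Perm.sign_swap hij]
      simp
    have h2 := hsi ((1 : Matrix (Fin n) (Fin n) ℂ).submatrix (Equiv.swap i j) id)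
      (by rw [hdet]; simp) 1
    rw [Matrix.one_mul, hsym, hdet, hd.neg_one_pow] at h2
    linear_combination (1 / 2 : ℂ) * h2
  have h2 : ∀ G : Matrix (Fin n) (Fin n) ℂ, G.det ≠ 0 → F G = 0 := by
    intro G hG
    have := hsi G hG 1
    rwa [Matrix.one_mul, h1, mul_zero] at this
  obtain ⟨p, hp⟩ := hpoly A 1
  have hp0 : p = 0 := by
    apply Polynomial.eq_zero_of_infinite_isRoot
    have hc : (-A).charpoly ≠ 0 := (Matrix.charpoly_monic _).ne_zero
    have hfin : {s : ℂ | (-A).charpoly.IsRoot s}.Finite := Polynomial.finite_setOfPred_isRoot hc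
    refine Set.Infinite.mono ?_ hfin.infinite_compl
    intro s hs
    simp only [Set.mem_compl_iff, Set.mem_ofPred_eq, IsRoot.def] at hs ⊢
    rw [← hp]
    apply h2
    rw [Matrix.eval_charpoly] at hs
    convert hs using 2
    ext a b
    by_cases h : a = b <;> simp [h, Matrix.one_apply, add_comm]
  have := hp 0
  simpa [hp0] using this

end Pool.Agent.MP_96ff56_al.H10
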