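import Pool.Agent.MP_96ff56_al.H10.Defs
import Pool.Agent.MP_96ff56_al.H10.MatLemmas

namespace Pool.Agent.MP_96ff56_al.H10

open Polynomial Matrix

lemma vanish_rect {n m d : ℕ} (hn : 2 ≤ n) (hnm : n ≤ m) (hd : Odd d)
    (F : Matrix (Fin n) (Fin m) ℂ → ℂ)
    (hpoly : ∀ A B : Matrix (Fin n) (Fin m) ℂ, ∃ p : ℂ[X], ∀ s : ℂ, F (A + s • B) = p.eval s)
    (hB : ∀ (A : Matrix (Fin n) (Fin m) ℂ) (G : Matrix (Fin m) (Fin m) ℂ),
      G.BlockTriangular id → G.det ≠ 0 → F (A * G) = (∏ i, G i i ^ rect m d n i) * F A)
    (hsym : ∀ (A : Matrix (Fin n) (Fin m) ℂ) (σ : Equiv.Perm (Fin n)),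
      F (A.submatrix σ id) = F A) (A : Matrix (Fin n) (Fin m) ℂ) : F A = 0 := by
  let J : Matrix (Fin n) (Fin m) ℂ := (1 : Matrix (Fin m) (Fin m) ℂ).submatrix (Fin.castLE hnm) id
  have hJ : ∀ (B : Matrix (Fin n) (Fin n) ℂ) (a : Fin n) (k : Fin m),
      (B * J) a k = if h : (k : ℕ) < n then B a ⟨k, h⟩ else 0 := by
    intro B a k
    rw [Matrix.mul_apply]
    split_ifs with h
    · rw [Finset.sum_eq_single ⟨k, h⟩]
      · have : Fin.castLE hnm ⟨k, h⟩ = k := by ext; simp
        simp only [J, Matrix.submatrix_apply]
        rw [this, id, Matrix.one_apply_eq, mul_one]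
      · intro c _ hc
        have : Fin.castLE hnm c ≠ k := by
          intro h'
          apply hc
          ext
          simp [← h']
        simp [J, this]
      · simp
    · refine Finset.sum_eq_zero fun c _ => ?_
      have : Fin.castLE hnm c ≠ k := by
        intro h'
        apply h
        rw [← h']
        simp
      simp [J, this]
  have hprod : ∀ D : Fin m → ℂ,
      ∏ i, D i ^ rect m d n i = (∏ i : Fin n, D (Fin.castLE hnm i)) ^ d := by
    intro D
    rw [← Finset.prod_pow]
    symm
    refine Finset.prod_of_injOn (Fin.castLE hnm) (fun a _ c _ h => Fin.castLE_injective hnm h)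
      (by simp) ?_ ?_
    · intro i _ hi
      have : ¬ (i : ℕ) < n := by
        intro h
        apply hi
        exact ⟨⟨i, h⟩, by simp, by ext; simp⟩
      simp [rect, this]
    · intro i _
      simp [rect]
  have h0 : ∀ B : Matrix (Fin n) (Fin n) ℂ, F (B * J) = 0 := by
    refine vanish_sq hn hd (fun B => F (B * J)) ?_ ?_ ?_ ?_
    · intro A B
      obtain ⟨p, hp⟩ := hpoly (A * J) (B * J)
      refine ⟨p, fun s => ?_⟩
      rw [← hp, Matrix.add_mul, Matrix.smul_mul]
    · intro A i j c hij
      have hne : Fin.castLE hnm i ≠ Fin.castLE hnm j :=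
        fun h => hij.ne (Fin.castLE_injective hnm h)
      have e : A * transvection i j c * J
          = A * J * transvection (Fin.castLE hnm i) (Fin.castLE hnm j) c := by
        ext a k
        by_cases hk : k = Fin.castLE hnm j
        · subst hk
          rw [mul_transvection_apply_same, hJ, hJ, hJ]
          simp [mul_transvection_apply_same]
        · rw [mul_transvection_apply_of_ne _ _ _ _ hk, hJ, hJ]
          split_ifs with h
          · rw [mul_transvection_apply_of_ne]
            intro h'
            apply hk
            ext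
            simp [← h']
          · rfl
      have ht : (transvection (Fin.castLE hnm i) (Fin.castLE hnm j) c).BlockTriangular id :=
        blockTriangular_transvection (by simpa using hij.le) c
      show F (A * transvection i j c * J) = F (A * J)
      rw [e, hB _ _ ht (by rw [det_transvection_of_ne _ _ hne]; simp)]
      have : ∀ k, transvection (Fin.castLE hnm i) (Fin.castLE hnm j) c k k = 1 := by
        intro k
        rw [transvection, Matrix.add_apply, Matrix.one_apply_eq, Matrix.single_apply_of_ne, add_zero]
        rintro ⟨h1, h2⟩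
        exact hne (h1.trans h2.symm)
      simp [this]
    · intro A D hD
      let D' : Fin m → ℂ := fun k => if h : (k : ℕ) < n then D ⟨k, h⟩ else 1
      have e : A * diagonal D * J = A * J * diagonal D' := by
        ext a k
        rw [mul_diagonal, hJ, hJ]
        split_ifs with h
        · simp [D', h, mul_diagonal]
        · simp
      have hD' : (diagonal D').det ≠ 0 := by
        rw [det_diagonal, Finset.prod_ne_zero_iff]
        intro k _
        simp only [D']
        split_ifs
        · exact hD _
        · simp
      show F (A * diagonal D * J) = _ * F (A * J)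
      rw [e, hB _ _ (blockTriangular_diagonal _) hD']
      simp only [diagonal_apply_eq]
      rw [hprod]
      simp [D']
    · intro A σ
      show F (A.submatrix σ id * J) = F (A * J)
      rw [← hsym (A * J) σ]
      congr 1
  set A₀ : Matrix (Fin n) (Fin m) ℂ := A.submatrix id (Fin.castLE hnm) * J with hA₀
  obtain ⟨p, hp⟩ := hpoly A₀ (A - A₀)
  have hc : p = C (F A) := by
    apply poly_eq_of_ne_zero
    intro s hs
    let D : Fin m → ℂ := fun k => if (k : ℕ) < n then 1 else s
    have e : A₀ + s • (A - A₀) = A * diagonal D := by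
      ext a k
      rw [mul_diagonal, Matrix.add_apply, Matrix.smul_apply, Matrix.sub_apply, hA₀, hJ]
      split_ifs with h
      · simp [D, h]
      · simp [D, h, mul_comm]
    have hD : (diagonal D).det ≠ 0 := by
      rw [det_diagonal, Finset.prod_ne_zero_iff]
      intro k _
      simp only [D]
      split_ifs
      · simp
      · exact hs
    rw [← hp, e, hB _ _ (blockTriangular_diagonal _) hD]
    simp only [diagonal_apply_eq]
    rw [hprod]
    simp [D]
  have h1 := hp 0
  rw [hc] at h1
  simp only [zero_smul, add_zero, eval_C] at h1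
  rw [← h1, hA₀, h0]

lemma polarize {n d : ℕ} {M : Type*} [AddCommGroup M] [Module ℂ M]
    (u : MultilinearMap ℂ (fun _ : Fin n × Fin d => M) ℂ)
    (hsym : ∀ (τ : Fin n → Equiv.Perm (Fin d)) (x : Fin n × Fin d → M),
      u (fun p => x (p.1, τ p.1 p.2)) = u x)
    (h0 : ∀ L : Fin n → M, u (fun p => L p.1) = 0) : u = 0 := by
  classical
  ext x
  let P : MvPolynomial (Fin n × Fin d) ℂ :=
    ∑ φ : Fin n × Fin d → Fin d,
      MvPolynomial.monomial (∑ p, Finsupp.single (p.1, φ p) 1) (u fun p => x (p.1, φ p))
  have hP : P = 0 := by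
    apply MvPolynomial.funext
    intro s
    have h := h0 (fun i => ∑ j, s (i, j) • x (i, j))
    rw [MultilinearMap.map_sum u (fun p j => s (p.1, j) • x (p.1, j))] at h
    simp only [MultilinearMap.map_smul_univ, smul_eq_mul] at h
    simp only [P, map_sum, map_zero]
    rw [← h]
    refine Finset.sum_congr rfl fun φ _ => ?_
    rw [MvPolynomial.eval_monomial, mul_comm]
    congr 1
    rw [← Finsupp.prod_finsetSum_index (h := fun n e => s n ^ e) (by simp)
      (by intros; rw [pow_add])]
    simp
  let e : (Fin n × Fin d) →₀ ℕ := ∑ p, Finsupp.single p 1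
  have hc := congrArg (MvPolynomial.coeff e) hP
  simp only [P, MvPolynomial.coeff_sum, MvPolynomial.coeff_monomial, MvPolynomial.coeff_zero] at hc
  have hval : ∀ φ : Fin n × Fin d → Fin d,
      (∑ p : Fin n × Fin d, Finsupp.single (p.1, φ p) 1 = e) →
        (u fun p => x (p.1, φ p)) = u x := by
    intro φ hφ
    have hs : ∀ i, Function.Surjective fun j => φ (i, j) := by
      intro i j
      by_contra hcon
      have h1 := congrArg (fun f => f (i, j)) hφ
      simp only [e, Finsupp.finsetSum_apply, Finsupp.single_apply] at h1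
      rw [Finset.sum_eq_zero, Finset.sum_ite_eq'] at h1
      · simp at h1
      · intro p _
        rw [if_neg]
        intro hp
        apply hcon
        obtain ⟨h2, h3⟩ := Prod.ext_iff.mp hp
        refine ⟨p.2, ?_⟩
        simp only at h2 h3 ⊢
        rw [← h2]
        exact h3
    exact hsym (fun i => Equiv.ofBijective _ (Finite.surjective_iff_bijective.mp (hs i))) x
  rw [Finset.sum_congr rfl (g := fun φ =>
      if (∑ p : Fin n × Fin d, Finsupp.single (p.1, φ p) 1 = e) then u x else 0)
      (fun φ _ => by
        split_ifs with h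
        · exact hval φ h
        · rfl), ← Finset.sum_filter, Finset.sum_const, nsmul_eq_mul, mul_eq_zero] at hc
  rcases hc with hc | hc
  · exfalso
    rw [Nat.cast_eq_zero, Finset.card_eq_zero, Finset.filter_eq_empty_iff] at hc
    exact hc (Finset.mem_univ Prod.snd) rfl
  · simpa using hc

end Pool.Agent.MP_96ff56_al.H10
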