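import Pool.Agent.MP_96ff56_al.H10.Polar

namespace Pool.Agent.MP_96ff56_al.H10

open Polynomial Matrix

variable {V : Type*} [AddCommGroup V] [Module ℂ V]

lemma reidx_apply {ι κ : Type} (e : ι ≃ κ) (t : Tens V ι) (x : κ → Module.Dual ℂ V) :
    reidx e t x = t (fun i => x (e i)) := rfl

lemma act_apply {ι : Type} (g : V ≃ₗ[ℂ] V) (t : Tens V ι) (x : ι → Module.Dual ℂ V) :
    act g t x = t (fun i => (x i) ∘ₗ g.toLinearMap) := rfl

lemma act_add {ι : Type} (g : V ≃ₗ[ℂ] V) (t t' : Tens V ι) :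
    act g (t + t') = act g t + act g t' := rfl

lemma act_smul {ι : Type} (g : V ≃ₗ[ℂ] V) (c : ℂ) (t : Tens V ι) :
    act g (c • t) = c • act g t := rfl

lemma act_zero {ι : Type} (g : V ≃ₗ[ℂ] V) : act g (0 : Tens V ι) = 0 := rfl

lemma hhh_apply (d n : ℕ) (t : Tens V (Fin d × Fin n)) (x : Fin n × Fin d → Module.Dual ℂ V) :
    hhh V d n t x = (Fintype.card (Equiv.Perm (Fin n)) : ℂ)⁻¹ * ∑ σ : Equiv.Perm (Fin n),
      (Fintype.card (Fin n → Equiv.Perm (Fin d)) : ℂ)⁻¹ * ∑ τ : Fin n → Equiv.Perm (Fin d),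
        t (fun p => x (σ p.2, τ p.2 p.1)) := by
  simp only [hhh, avg, LinearMap.comp_apply, LinearMap.smul_apply, LinearMap.sum_apply,
    _root_.smul_apply, _root_.sum_apply, reidx_apply, smul_eq_mul]
  rfl

lemma act_hhh (d n : ℕ) (g : V ≃ₗ[ℂ] V) (t : Tens V (Fin d × Fin n)) :
    act g (hhh V d n t) = hhh V d n (act g t) := by
  ext x
  rw [act_apply, hhh_apply, hhh_apply]
  rfl

lemma hhh_inner (d n : ℕ) (t : Tens V (Fin d × Fin n)) (τ' : Fin n → Equiv.Perm (Fin d))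
    (x : Fin n × Fin d → Module.Dual ℂ V) :
    hhh V d n t (fun p => x (p.1, τ' p.1 p.2)) = hhh V d n t x := by
  rw [hhh_apply, hhh_apply]
  congr 1
  refine Finset.sum_congr rfl fun σ _ => ?_
  congr 1
  exact Fintype.sum_equiv (Equiv.mulLeft (fun a => τ' (σ a))) _ _ (fun τ => rfl)

lemma hhh_outer (d n : ℕ) (t : Tens V (Fin d × Fin n)) (σ' : Equiv.Perm (Fin n))
    (L : Fin n → Module.Dual ℂ V) :
    hhh V d n t (fun p => L (σ' p.1)) = hhh V d n t (fun p => L p.1) := by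
  rw [hhh_apply, hhh_apply]
  congr 1
  exact Fintype.sum_equiv (Equiv.mulLeft σ') _ _ (fun σ => rfl)

/-- the invertible map with a given invertible matrix -/
lemma exists_equiv {m : ℕ} (b : Module.Basis (Fin m) ℂ V) (G : Matrix (Fin m) (Fin m) ℂ)
    (hG : G.det ≠ 0) : ∃ g : V ≃ₗ[ℂ] V, LinearMap.toMatrix b b g.toLinearMap = G := by
  refine ⟨LinearEquiv.ofIsUnitDet (f := Matrix.toLin b b G) (v := b) (v' := b)
    (by rw [LinearMap.toMatrix_toLin]; exact isUnit_iff_ne_zero.mpr hG), ?_⟩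
  rw [LinearEquiv.coe_ofIsUnitDet, LinearMap.toMatrix_toLin]

lemma constr_comp {m : ℕ} (b : Module.Basis (Fin m) ℂ V) (g : V →ₗ[ℂ] V) (r : Fin m → ℂ) :
    (b.constr ℂ r) ∘ₗ g = b.constr ℂ (r ᵥ* LinearMap.toMatrix b b g) := by
  refine b.ext fun j => ?_
  rw [LinearMap.comp_apply, Module.Basis.constr_basis, Module.Basis.constr_apply_fintype]
  simp [Matrix.vecMul, dotProduct, LinearMap.toMatrix_apply, mul_comm]

lemma hhh_eq_zero {m d n : ℕ} (hn : 2 ≤ n) (hnm : n ≤ m) (hd : Odd d)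
    (b : Module.Basis (Fin m) ℂ V) (t : Tens V (Fin d × Fin n))
    (ht : IsHW b (rect m d n) t) : hhh V d n t = 0 := by
  apply polarize _ (hhh_inner d n t)
  intro L
  have key := vanish_rect hn hnm hd
    (fun A => hhh V d n t (fun p => b.constr ℂ (A p.1))) ?_ ?_ ?_
    (Matrix.of fun i k => L i (b k))
  · convert key using 3 with p
    refine b.ext fun j => ?_
    simp
  · intro A B
    obtain ⟨p, hp⟩ := poly_line (hhh V d n t) (fun p => b.constr ℂ (A p.1))
      (fun p => b.constr ℂ (B p.1))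
    refine ⟨p, fun s => ?_⟩
    rw [← hp]
    congr 1
    funext q
    simp only [Pi.add_apply, Pi.smul_apply]
    rw [← map_smul, ← map_add]
    rfl
  · intro A G hG hdet
    obtain ⟨g, rfl⟩ := exists_equiv b G hdet
    have h1 := congrArg (fun u => hhh V d n u (fun p => b.constr ℂ (A p.1))) (ht.2 g hG)
    simp only [← act_hhh, map_smul, _root_.smul_apply, smul_eq_mul, act_apply,
      constr_comp] at h1
    exact h1
  · intro A σ
    exact hhh_outer d n t σ (fun i => b.constr ℂ (A i))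

theorem isotypic_le_ker {m d n : ℕ} (hn : 2 ≤ n) (hnm : n ≤ m) (hd : Odd d)
    (b : Module.Basis (Fin m) ℂ V) :
    isotypic b (rect m d n) (symSym V d n) ≤ LinearMap.ker (hhh V d n) := by
  refine sSup_le ?_
  rintro W ⟨-, hW, t, htW, ht⟩
  have h0 : hhh V d n t = 0 := hhh_eq_zero hn hnm hd b t ht
  have hinv : IsInv (W ⊓ LinearMap.ker (hhh V d n)) := by
    rintro g u ⟨hu, hu0⟩
    refine ⟨hW.1 g u hu, ?_⟩
    have hu1 : hhh V d n u = 0 := hu0
    show hhh V d n (act g u) = 0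
    rw [← act_hhh, hu1, act_zero]
  rcases hW.2.2 (W ⊓ LinearMap.ker (hhh V d n)) inf_le_left hinv with h | h
  · exfalso
    have : t ∈ W ⊓ LinearMap.ker (hhh V d n) := ⟨htW, h0⟩
    rw [h, Submodule.mem_bot] at this
    exact ht.1 this
  · rw [← h]
    exact inf_le_right

end Pool.Agent.MP_96ff56_al.H10
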